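import Pool.Agent.Helper55.K4.Far
import Pool.Agent.Helper46.K3.Basic

/-!
# Row UNIT: most doses at least one
-/

set_option autoImplicit false

namespace K4

open Finset

/-- most doses at least one -/
theorem unit {n s : ℕ} (hsn : s ≤ n) (g : Fin n → ℝ) (hg : ∀ i, 0 ≤ g i)
    (hsum : ∑ i, g i < s + 1)
    (hA : 60 * s ≤ n + 59 * (univ.filter (fun i => 1 ≤ g i)).card) :
    K3.cnt 1 4 g univ + (n - s).choose 4 ≤ n.choose 4 := by
  classical
  set U : Finset (Fin n) := univ.filter (fun i => 1 ≤ g i) with hU
  set A : Finset (Fin n) := univ \ U with hAdef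
  have hUn : U.card ≤ n := by
    have := card_le_univ U
    rwa [Fintype.card_fin] at this
  have hAc : A.card = n - U.card := by
    rw [hAdef, card_sdiff_of_subset (subset_univ _), card_univ, Fintype.card_fin]
  have hsplit : ∑ i ∈ A, g i + ∑ i ∈ U, g i = ∑ i, g i := sum_sdiff (subset_univ U)
  have hUsum : (U.card : ℝ) ≤ ∑ i ∈ U, g i := by
    have := card_nsmul_le_sum U g 1 (fun i hi => (mem_filter.1 hi).2)
    simpa using this
  have hAsum0 : 0 ≤ ∑ i ∈ A, g i := sum_nonneg (fun i _ => hg i)
  have hUs : U.card ≤ s := by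
    have : (U.card : ℝ) < s + 1 := by linarith
    have : U.card < s + 1 := by exact_mod_cast this
    omega
  set F : Finset (Finset (Fin n)) := (powersetCard 4 A).filter (fun V => 1 ≤ ∑ i ∈ V, g i) with hF
  have hfar := far (s - U.card) A F
    (by
      intro V hV
      rw [hF, mem_filter, mem_powersetCard] at hV
      exact hV.1)
    (by
      intro D hD hdis
      have h1 : (D.card : ℝ) ≤ ∑ V ∈ D, ∑ i ∈ V, g i := by
        have := card_nsmul_le_sum D (fun V => ∑ i ∈ V, g i) 1
          (fun V hV => (mem_filter.1 (hD hV)).2)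
        simpa using this
      have h2 : ∑ V ∈ D, ∑ i ∈ V, g i = ∑ i ∈ D.biUnion id, g i := by
        rw [sum_biUnion]
        · rfl
        · intro V hV W hW hVW
          exact hdis V hV W hW hVW
      have h3 : ∑ i ∈ D.biUnion id, g i ≤ ∑ i ∈ A, g i := by
        apply sum_le_sum_of_subset_of_nonneg
        · intro i hi
          obtain ⟨V, hV, hiV⟩ := mem_biUnion.1 hi
          exact (mem_powersetCard.1 (mem_filter.1 (hD hV)).1).1 hiV
        · intro i _ _
          exact hg i
      have h4 : ((D.card + U.card : ℕ) : ℝ) < ((s + 1 : ℕ) : ℝ) := by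
        push_cast
        linarith
      have h5 : D.card + U.card < s + 1 := by exact_mod_cast h4
      omega)
    (by
      rw [hAc]
      omega)
  have hcnt : K3.cnt 1 4 g univ ≤ (n.choose 4 - A.card.choose 4) + F.card := by
    unfold K3.cnt
    have hsub : (powersetCard 4 (univ : Finset (Fin n))).filter (fun V => 1 ≤ ∑ i ∈ V, g i)
        ⊆ (powersetCard 4 (univ : Finset (Fin n)) \ powersetCard 4 A) ∪ F := by
      intro V hV
      rw [mem_filter, mem_powersetCard] at hV
      rw [mem_union]
      by_cases hVA : V ⊆ A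
      · right
        rw [hF, mem_filter, mem_powersetCard]
        exact ⟨⟨hVA, hV.1.2⟩, hV.2⟩
      · left
        rw [mem_sdiff, mem_powersetCard, mem_powersetCard]
        exact ⟨hV.1, fun h => hVA h.1⟩
    refine (card_le_card hsub).trans ((card_union_le _ _).trans ?_)
    apply Nat.add_le_add_right
    rw [card_sdiff_of_subset (powersetCard_mono (subset_univ A)), card_powersetCard,
      card_powersetCard, card_univ, Fintype.card_fin]
  have h6 : A.card - (s - U.card) = n - s := by omega
  rw [h6] at hfar
  have h7 : A.card.choose 4 ≤ n.choose 4 := Nat.choose_le_choose _ (by omega)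
  omega

end K4
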